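import Mathlib
import Pool.Agent.H47.NIOperB

/-!
# The rank-one numerical index of `L_p(μ)` equals `κ_p` only for `p = 2`

The conjecture `n_1(L_p(μ)) = κ_p` (for `1 < p < ∞` and `dim L_p(μ) > 1`) is false for every
`p ≠ 2`, for every measure `μ` with `dim L_p(μ) > 1`, in the real and in the complex case.
-/

set_option autoImplicit false

namespace Pool.Agent.Results.MP_d0ed5b_an.Disproof

open MeasureTheory
open scoped ENNReal

/-- The numerical radius `v(T) = sup {|f(Tx)| : ‖x‖ = ‖f‖ = f(x) = 1}`. -/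
noncomputable def numericalRadius {𝕜 X : Type*} [RCLike 𝕜] [NormedAddCommGroup X]
    [NormedSpace 𝕜 X] (T : X →L[𝕜] X) : ℝ :=
  sSup {r : ℝ | ∃ (x : X) (f : X →L[𝕜] 𝕜), ‖x‖ = 1 ∧ ‖f‖ = 1 ∧ f x = 1 ∧ r = ‖f (T x)‖}

/-- The rank-one numerical index `n_1(X) = inf {v(T) : T of rank one, ‖T‖ = 1}`. -/
noncomputable def rankOneIndex (𝕜 X : Type*) [RCLike 𝕜] [NormedAddCommGroup X]
    [NormedSpace 𝕜 X] : ℝ :=
  sInf {r : ℝ | ∃ T : X →L[𝕜] X, LinearMap.rank (T : X →ₗ[𝕜] X) = 1 ∧ ‖T‖ = 1 ∧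
    r = numericalRadius T}

/-- `κ_p = 1 / (p^(1/p) q^(1/q))` with `q = p / (p - 1)`. -/
noncomputable def kappa (p : ℝ) : ℝ :=
  1 / (p ^ (1 / p) * (p / (p - 1)) ^ (1 / (p / (p - 1))))

lemma kappa_eq {p : ℝ} (hp : 1 < p) : kappa p = H47.NI.kappa p := by
  unfold kappa H47.NI.kappa
  have : 1 / (p / (p - 1)) = 1 - 1 / p := by
    have h1 : p ≠ 0 := by linarith
    have h2 : p - 1 ≠ 0 := by linarith
    field_simp
  rw [this]

section General

variable {𝕜 X : Type*} [RCLike 𝕜] [NormedAddCommGroup X] [NormedSpace 𝕜 X]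

lemma numericalRadius_nonneg (T : X →L[𝕜] X) : 0 ≤ numericalRadius T := by
  refine Real.sSup_nonneg ?_
  rintro r ⟨x, f, _, _, _, rfl⟩
  exact norm_nonneg _

lemma le_numericalRadius (T : X →L[𝕜] X) {x : X} {f : X →L[𝕜] 𝕜} (hx : ‖x‖ = 1) (hf : ‖f‖ = 1)
    (hfx : f x = 1) : ‖f (T x)‖ ≤ numericalRadius T := by
  refine le_csSup ⟨‖T‖, ?_⟩ ⟨x, f, hx, hf, hfx, rfl⟩
  rintro r ⟨y, g, hy, hg, _, rfl⟩
  refine (g.le_opNorm _).trans ?_
  rw [hg, one_mul]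
  refine (T.le_opNorm _).trans ?_
  rw [hy, mul_one]

lemma rankOneIndex_le {T : X →L[𝕜] X} (hrank : LinearMap.rank (T : X →ₗ[𝕜] X) = 1)
    (hT : ‖T‖ = 1) : rankOneIndex 𝕜 X ≤ numericalRadius T := by
  refine csInf_le ⟨0, ?_⟩ ⟨T, hrank, hT, rfl⟩
  rintro r ⟨S, _, _, rfl⟩
  exact numericalRadius_nonneg S

/-- Upper bound for `n_1(X)` from a rank-one operator `φ ⊗ u` (not normalised). -/
lemma rankOneIndex_le_of {φ : X →L[𝕜] 𝕜} {u : X} (hφ : φ ≠ 0) (hu : u ≠ 0) {M : ℝ} (hM : 0 ≤ M)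
    (h : ∀ (x : X) (f : X →L[𝕜] 𝕜), ‖x‖ = 1 → ‖f‖ = 1 → f x = 1 → ‖φ x * f u‖ ≤ M) :
    rankOneIndex 𝕜 X ≤ M / (‖φ‖ * ‖u‖) := by
  have hφn : 0 < ‖φ‖ := norm_pos_iff.2 hφ
  have hun : 0 < ‖u‖ := norm_pos_iff.2 hu
  obtain ⟨c, hc⟩ : ∃ c : ℝ, c = (‖φ‖ * ‖u‖)⁻¹ := ⟨_, rfl⟩
  have hcpos : 0 < c := by rw [hc]; positivity
  have hcne : (c : 𝕜) ≠ 0 := by exact_mod_cast hcpos.ne'
  have hcu : (c : 𝕜) • u ≠ 0 := smul_ne_zero hcne hu
  have hT : ‖φ.smulRight ((c : 𝕜) • u)‖ = 1 := by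
    rw [ContinuousLinearMap.norm_smulRight_apply, norm_smul, RCLike.norm_ofReal,
      abs_of_pos hcpos, hc]
    field_simp
  have hrank : LinearMap.rank ((φ.smulRight ((c : 𝕜) • u) : X →L[𝕜] X) : X →ₗ[𝕜] X) = 1 := by
    rw [LinearMap.rank, ContinuousLinearMap.range_smulRight_apply hφ,
      Module.rank_eq_one_iff_finrank_eq_one]
    exact finrank_span_singleton hcu
  refine (rankOneIndex_le hrank hT).trans ?_
  refine Real.sSup_le ?_ (by positivity)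
  rintro r ⟨x, f, hx, hf, hfx, rfl⟩
  rw [ContinuousLinearMap.smulRight_apply, map_smul, map_smul, smul_eq_mul, smul_eq_mul]
  have h1 := h x f hx hf hfx
  have h2 : φ x * ((c : 𝕜) * f u) = (c : 𝕜) * (φ x * f u) := by ring
  rw [h2, norm_mul, RCLike.norm_ofReal, abs_of_pos hcpos, hc, div_eq_inv_mul]
  exact mul_le_mul_of_nonneg_left h1 (by positivity)

end General

section Hilbert

variable {𝕜 H : Type*} [RCLike 𝕜] [NormedAddCommGroup H] [InnerProductSpace 𝕜 H] [CompleteSpace H]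

/-- In a Hilbert space every rank-one operator of norm one has numerical radius at least `1/2`. -/
lemma hilbert_lower (T : H →L[𝕜] H) (hrank : LinearMap.rank (T : H →ₗ[𝕜] H) = 1) (hT : ‖T‖ = 1) :
    1 / 2 ≤ numericalRadius T := by
  -- a unit vector spanning the range
  obtain ⟨u, hu1, hTu⟩ : ∃ u : H, ‖u‖ = 1 ∧ ∀ x, T x = (inner 𝕜 u (T x)) • u := by
    rw [LinearMap.rank, Module.rank_eq_one_iff_finrank_eq_one, finrank_eq_one_iff'] at hrank
    obtain ⟨v, hv, hvs⟩ := hrank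
    have hv0 : (v : H) ≠ 0 := by
      intro h
      exact hv (Subtype.ext h)
    have hvn : 0 < ‖(v : H)‖ := norm_pos_iff.2 hv0
    refine ⟨((‖(v : H)‖⁻¹ : ℝ) : 𝕜) • (v : H), ?_, ?_⟩
    · rw [norm_smul, RCLike.norm_ofReal, abs_of_pos (by positivity), inv_mul_cancel₀ hvn.ne']
    · intro x
      obtain ⟨c, hc⟩ := hvs ⟨T x, LinearMap.mem_range_self _ x⟩
      have hc' : T x = c • (v : H) := by
        have := congrArg Subtype.val hc
        simpa using this.symm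
      rw [hc', inner_smul_left, inner_smul_right, inner_self_eq_norm_sq_to_K, smul_smul,
        RCLike.conj_ofReal]
      congr 1
      have hne : ((‖(v : H)‖ : ℝ) : 𝕜) ≠ 0 := by exact_mod_cast hvn.ne'
      rw [RCLike.ofReal_inv]
      field_simp
  obtain ⟨w, hw⟩ : ∃ w : H, w = ContinuousLinearMap.adjoint T u := ⟨_, rfl⟩
  have hTw : ∀ x, T x = (inner 𝕜 w x) • u := by
    intro x
    rw [hw, ContinuousLinearMap.adjoint_inner_left]
    exact hTu x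
  have hTn : ∀ x, ‖T x‖ = ‖inner 𝕜 w x‖ := by
    intro x
    rw [hTw x, norm_smul, hu1, mul_one]
  have hw1 : ‖w‖ = 1 := by
    apply le_antisymm
    · rcases eq_or_ne w 0 with h | h
      · rw [h, norm_zero]; exact zero_le_one
      · have h1 := T.le_opNorm w
        rw [hTn, hT, one_mul, inner_self_eq_norm_sq_to_K, norm_pow, RCLike.norm_ofReal,
          abs_of_nonneg (norm_nonneg _)] at h1
        have h2 : 0 < ‖w‖ := norm_pos_iff.2 h
        nlinarith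
    · rw [← hT]
      refine T.opNorm_le_bound (norm_nonneg _) fun x => ?_
      rw [hTn]
      exact norm_inner_le_norm w x
  obtain ⟨c, hc1, hc⟩ := H47.NI.exists_unimodular (inner 𝕜 w u)
  obtain ⟨ρ, hρ⟩ : ∃ ρ : ℝ, ρ = ‖(inner 𝕜 w u : 𝕜)‖ := ⟨_, rfl⟩
  rw [← hρ] at hc
  have hρ0 : 0 ≤ ρ := by rw [hρ]; exact norm_nonneg _
  obtain ⟨y, hy⟩ : ∃ y : H, y = w + c • u := ⟨_, rfl⟩
  have hcu : ‖c • u‖ = 1 := by rw [norm_smul, hc1, hu1, one_mul]
  have i1 : inner 𝕜 w (c • u) = (ρ : 𝕜) := by rw [inner_smul_right, hc]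
  have i2 : inner 𝕜 (c • u) w = (ρ : 𝕜) := by
    rw [← inner_conj_symm, i1, RCLike.conj_ofReal]
  have i3 : inner 𝕜 w y = ((1 + ρ : ℝ) : 𝕜) := by
    rw [hy, inner_add_right, inner_self_eq_norm_sq_to_K, hw1, i1]; push_cast; ring
  have i4 : inner 𝕜 y (c • u) = ((1 + ρ : ℝ) : 𝕜) := by
    rw [hy, inner_add_left, i1, inner_self_eq_norm_sq_to_K, hcu]; push_cast; ring
  have i5 : ‖(inner 𝕜 y u : 𝕜)‖ = 1 + ρ := by
    have h1 : ‖(inner 𝕜 y (c • u) : 𝕜)‖ = ‖(inner 𝕜 y u : 𝕜)‖ := by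
      rw [inner_smul_right, norm_mul, hc1, one_mul]
    rw [← h1, i4, RCLike.norm_ofReal, abs_of_nonneg (by linarith)]
  have i6 : ‖y‖ ^ 2 = 2 + 2 * ρ := by
    have i7 : inner 𝕜 (c • u) y = ((1 + ρ : ℝ) : 𝕜) := by
      rw [← inner_conj_symm, i4, RCLike.conj_ofReal]
    have h1 : inner 𝕜 y y = ((2 + 2 * ρ : ℝ) : 𝕜) := by
      calc inner 𝕜 y y = inner 𝕜 (w + c • u) y := by rw [← hy]
        _ = ((1 + ρ : ℝ) : 𝕜) + ((1 + ρ : ℝ) : 𝕜) := by rw [inner_add_left, i3, i7]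
        _ = ((2 + 2 * ρ : ℝ) : 𝕜) := by push_cast; ring
    rw [inner_self_eq_norm_sq_to_K] at h1
    exact_mod_cast h1
  have hypos : 0 < ‖y‖ := by
    rcases eq_or_lt_of_le (norm_nonneg y) with h | h
    · rw [← h] at i6; norm_num at i6; linarith
    · exact h
  obtain ⟨x, hx⟩ : ∃ x : H, x = ((‖y‖⁻¹ : ℝ) : 𝕜) • y := ⟨_, rfl⟩
  have hx1 : ‖x‖ = 1 := by
    rw [hx, norm_smul, RCLike.norm_ofReal, abs_of_pos (by positivity), inv_mul_cancel₀ hypos.ne']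
  have hfx : innerSL 𝕜 x x = 1 := by
    rw [innerSL_apply_apply, inner_self_eq_norm_sq_to_K, hx1]; simp
  have hle := le_numericalRadius T (x := x) (f := innerSL 𝕜 x) hx1
    (by rw [innerSL_apply_norm, hx1]) hfx
  refine le_trans ?_ hle
  rw [innerSL_apply_apply, hTw, inner_smul_right, norm_mul]
  have e1 : ‖(inner 𝕜 w x : 𝕜)‖ = ‖y‖⁻¹ * (1 + ρ) := by
    rw [hx, inner_smul_right, norm_mul, i3, RCLike.norm_ofReal, RCLike.norm_ofReal,
      abs_of_pos (by positivity), abs_of_nonneg (by linarith)]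
  have e2 : ‖(inner 𝕜 x u : 𝕜)‖ = ‖y‖⁻¹ * (1 + ρ) := by
    rw [hx, inner_smul_left, norm_mul, i5, RCLike.norm_conj, RCLike.norm_ofReal,
      abs_of_pos (by positivity)]
  rw [e1, e2]
  have e3 : ‖y‖⁻¹ * (1 + ρ) * (‖y‖⁻¹ * (1 + ρ)) = (1 + ρ) ^ 2 / ‖y‖ ^ 2 := by
    field_simp
  rw [e3, i6, div_le_div_iff₀ (by norm_num) (by linarith)]
  nlinarith

end Hilbert

variable {Ω : Type*} [MeasurableSpace Ω]

/-- Let `1 < p < ∞` and let `μ` be a measure with `dim L_p(μ) > 1` (real or complex scalars). Then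
`n_1(L_p(μ)) = κ_p` if and only if `p = 2`; for every other `p` one has `n_1(L_p(μ)) < κ_p`. -/
theorem result {𝕜 : Type*} [RCLike 𝕜] (μ : Measure Ω) (p : ℝ≥0∞) [Fact (1 ≤ p)] (hp1 : 1 < p)
    (hp : p ≠ ∞) (hdim : 1 < Module.rank 𝕜 (Lp 𝕜 p μ)) :
    (rankOneIndex 𝕜 (Lp 𝕜 p μ) = kappa p.toReal ↔ p = 2) ∧
    (p ≠ 2 → rankOneIndex 𝕜 (Lp 𝕜 p μ) < kappa p.toReal) := by
  have hr := H47.NI.one_lt_toReal hp1 hp
  obtain ⟨A, B, hA, hB, hAB, hμA0, hμA, hμB0, hμB⟩ :=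
    H47.NI.exists_disjoint (𝕜 := 𝕜) (μ := μ) (p := p) (by positivity) hp hdim
  obtain ⟨K, hK, hop⟩ := H47.NI.exists_operator (𝕜 := 𝕜) hp1 hp hA hB hAB hμA0 hμA hμB0 hμB
  have hκpos : 0 < kappa p.toReal := by rw [kappa_eq hr]; exact H47.NI.kappa_pos hr
  obtain ⟨r, hrdef⟩ : ∃ r : ℝ, r = p.toReal := ⟨_, rfl⟩
  have hlt : p ≠ 2 → rankOneIndex 𝕜 (Lp 𝕜 p μ) < kappa p.toReal := by
    intro hp2
    have hr2 : r ≠ 2 := by
      intro h
      apply hp2
      rw [← ENNReal.ofReal_toReal hp, ← hrdef, h]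
      norm_num
    -- common final step
    have hfin : ∀ b : ℝ, 0 ≤ b → ∀ (φ : Lp 𝕜 p μ →L[𝕜] 𝕜) (u : Lp 𝕜 p μ), φ ≠ 0 → u ≠ 0 →
        1 + K / kappa r * b ^ 2 < ‖φ‖ * ‖u‖ →
        (∀ (x : Lp 𝕜 p μ) (f : Lp 𝕜 p μ →L[𝕜] 𝕜), ‖x‖ = 1 → ‖f‖ = 1 → f x = 1 →
          ‖φ x * f u‖ ≤ H47.NI.kappa p.toReal + K * b ^ 2) →
        rankOneIndex 𝕜 (Lp 𝕜 p μ) < kappa p.toReal := by
      intro b hb φ u hφ hu hnorm hbound
      rw [← kappa_eq hr] at hbound
      refine (rankOneIndex_le_of hφ hu (by positivity) hbound).trans_lt ?_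
      rw [← hrdef] at hκpos ⊢
      have hφu : 0 < ‖φ‖ * ‖u‖ := by
        have : 0 ≤ K / kappa r * b ^ 2 := by positivity
        linarith
      rw [div_lt_iff₀ hφu]
      have h1 : kappa r * (1 + K / kappa r * b ^ 2) = kappa r + K * b ^ 2 := by
        field_simp
      rw [← h1]
      exact mul_lt_mul_of_pos_left hnorm hκpos
    rw [← hrdef] at hr hκpos
    rcases lt_or_gt_of_ne hr2 with h2 | h2
    · -- p < 2 : gain from u
      obtain ⟨b, hb, _, hgain⟩ := H47.NI.gain (e := r) (K := K / kappa r) (lam := r - 1) hr h2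
        (by positivity) (by linarith) (by linarith)
      obtain ⟨φ, u, hφ, hu, hφ1, hu1, _, hun, hbound⟩ := hop b hb.le
      refine hfin b hb.le φ u hφ hu ?_ hbound
      rw [← hrdef] at hun
      calc 1 + K / kappa r * b ^ 2 < (1 + ((r - 1) * b) ^ r) ^ (1 / r) := hgain
        _ ≤ ‖u‖ := hun
        _ ≤ ‖φ‖ * ‖u‖ := by nlinarith
    · -- p > 2 : gain from φ
      have hq1 : 1 < r / (r - 1) := by rw [lt_div_iff₀ (by linarith)]; linarith
      have hq2 : r / (r - 1) < 2 := by rw [div_lt_iff₀ (by linarith)]; linarith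
      obtain ⟨b, hb, _, hgain⟩ := H47.NI.gain (e := r / (r - 1)) (K := K / kappa r) (lam := 1) hq1
        hq2 (by positivity) one_pos le_rfl
      obtain ⟨φ, u, hφ, hu, hφ1, hu1, hφn, _, hbound⟩ := hop b hb.le
      refine hfin b hb.le φ u hφ hu ?_ hbound
      rw [← hrdef] at hφn
      rw [one_mul] at hgain
      calc 1 + K / kappa r * b ^ 2 < (1 + b ^ (r / (r - 1))) ^ (1 / (r / (r - 1))) := hgain
        _ ≤ ‖φ‖ := hφn
        _ ≤ ‖φ‖ * ‖u‖ := by nlinarith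
  refine ⟨⟨fun h => ?_, fun h => ?_⟩, hlt⟩
  · by_contra h2
    exact (hlt h2).ne h
  · subst h
    apply le_antisymm
    · obtain ⟨φ, u, hφ, hu, hφ1, hu1, _, _, hbound⟩ := hop 0 le_rfl
      have h1 := rankOneIndex_le_of hφ hu (M := kappa (2 : ℝ≥0∞).toReal) hκpos.le (by
        intro x f hx hf hfx
        have := hbound x f hx hf hfx
        rw [kappa_eq hr]
        simpa using this)
      refine h1.trans ?_
      exact div_le_self hκpos.le (by nlinarith)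
    · have hk : kappa (2 : ℝ≥0∞).toReal = 1 / 2 := by
        unfold kappa
        have h2 : (2 : ℝ≥0∞).toReal = 2 := by norm_num
        rw [h2]
        have h3 : (2 : ℝ) / (2 - 1) = 2 := by norm_num
        rw [h3, ← Real.rpow_add (by norm_num)]
        norm_num
      rw [hk]
      unfold rankOneIndex
      refine le_csInf ?_ ?_
      · obtain ⟨φ, u, hφ, hu, _⟩ := hop 0 le_rfl
        have hφn : 0 < ‖φ‖ := norm_pos_iff.2 hφ
        have hun : 0 < ‖u‖ := norm_pos_iff.2 hu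
        have hcne : (((‖φ‖ * ‖u‖)⁻¹ : ℝ) : 𝕜) ≠ 0 := by
          have : (‖φ‖ * ‖u‖)⁻¹ ≠ 0 := by positivity
          exact_mod_cast this
        refine ⟨_, φ.smulRight ((((‖φ‖ * ‖u‖)⁻¹ : ℝ) : 𝕜) • u), ?_, ?_, rfl⟩
        · rw [LinearMap.rank, ContinuousLinearMap.range_smulRight_apply hφ,
            Module.rank_eq_one_iff_finrank_eq_one]
          exact finrank_span_singleton (smul_ne_zero hcne hu)
        · rw [ContinuousLinearMap.norm_smulRight_apply, norm_smul, RCLike.norm_ofReal,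
            abs_of_pos (by positivity)]
          field_simp
      · rintro t ⟨T, hrank, hT, rfl⟩
        exact hilbert_lower T hrank hT

end Pool.Agent.Results.MP_d0ed5b_an.Disproof
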