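import Mathlib
import Pool.Agent.H47.NIOperB
import Pool.Agent.H47.NT.Rank
import Pool.Agent.H47.NT.Root
import Pool.Agent.H47.NT.SmoothB
import Pool.Agent.H47.NT.Low
import Pool.Agent.H47.NT.LowD
import Pool.Agent.H47.NT.Three
import Pool.Agent.H47.NT.Upp
import Pool.Agent.H47.NT.UppD

/-!
# The exact rank-one numerical index of real `L_p(μ)` for `p` near `2`

In the real case `n_1(L_p(μ))` is determined for all measures with `dim L_p(μ) ≥ 3` and all `p ≠ 2`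
with `max(p, p/(p-1)) ≤ 21/10`; the same value is a lower bound whenever `dim L_p(μ) > 1`.
-/

set_option autoImplicit false

namespace Pool.Agent.Results.MP_d0ed5b_an.ExactNearTwo

open MeasureTheory
open scoped ENNReal

/-- The numerical radius `v(T) = sup {|f(Tx)| : ‖x‖ = ‖f‖ = f(x) = 1}`. -/
noncomputable def numericalRadius {𝕜 X : Type*} [RCLike 𝕜] [NormedAddCommGroup X]
    [NormedSpace 𝕜 X] (T : X →L[𝕜] X) : ℝ :=
  sSup {r : ℝ | ∃ (x : X) (f : X →L[𝕜] 𝕜), ‖x‖ = 1 ∧ ‖f‖ = 1 ∧ f x = 1 ∧ r = ‖f (T x)‖}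

/-- The rank-one numerical index `n_1(X) = inf {v(T) : T of rank one, ‖T‖ = 1}`. -/
noncomputable def rankOneIndex (𝕜 X : Type*) [RCLike 𝕜] [NormedAddCommGroup X]
    [NormedSpace 𝕜 X] : ℝ :=
  sInf {r : ℝ | ∃ T : X →L[𝕜] X, LinearMap.rank (T : X →ₗ[𝕜] X) = 1 ∧ ‖T‖ = 1 ∧
    r = numericalRadius T}

section General

variable {𝕜 X : Type*} [RCLike 𝕜] [NormedAddCommGroup X] [NormedSpace 𝕜 X]

lemma numericalRadius_nonneg (T : X →L[𝕜] X) : 0 ≤ numericalRadius T := by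
  refine Real.sSup_nonneg ?_
  rintro r ⟨x, f, _, _, _, rfl⟩
  exact norm_nonneg _

lemma le_numericalRadius (T : X →L[𝕜] X) {x : X} {f : X →L[𝕜] 𝕜} (hx : ‖x‖ = 1) (hf : ‖f‖ = 1)
    (hfx : f x = 1) : ‖f (T x)‖ ≤ numericalRadius T := by
  refine le_csSup ⟨‖T‖, ?_⟩ ⟨x, f, hx, hf, hfx, rfl⟩
  rintro r ⟨y, g, hy, hg, _, rfl⟩
  refine (g.le_opNorm _).trans ?_
  rw [hg, one_mul]
  refine (T.le_opNorm _).trans ?_
  rw [hy, mul_one]

lemma rankOneIndex_le {T : X →L[𝕜] X} (hrank : LinearMap.rank (T : X →ₗ[𝕜] X) = 1)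
    (hT : ‖T‖ = 1) : rankOneIndex 𝕜 X ≤ numericalRadius T := by
  refine csInf_le ⟨0, ?_⟩ ⟨T, hrank, hT, rfl⟩
  rintro r ⟨S, _, _, rfl⟩
  exact numericalRadius_nonneg S

/-- Upper bound for `n_1(X)` from a rank-one operator `φ ⊗ u` (not normalised). -/
lemma rankOneIndex_le_of {φ : X →L[𝕜] 𝕜} {u : X} (hφ : φ ≠ 0) (hu : u ≠ 0) {M : ℝ} (hM : 0 ≤ M)
    (h : ∀ (x : X) (f : X →L[𝕜] 𝕜), ‖x‖ = 1 → ‖f‖ = 1 → f x = 1 → ‖φ x * f u‖ ≤ M) :
    rankOneIndex 𝕜 X ≤ M / (‖φ‖ * ‖u‖) := by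
  have hφn : 0 < ‖φ‖ := norm_pos_iff.2 hφ
  have hun : 0 < ‖u‖ := norm_pos_iff.2 hu
  obtain ⟨c, hc⟩ : ∃ c : ℝ, c = (‖φ‖ * ‖u‖)⁻¹ := ⟨_, rfl⟩
  have hcpos : 0 < c := by rw [hc]; positivity
  have hcne : (c : 𝕜) ≠ 0 := by exact_mod_cast hcpos.ne'
  have hcu : (c : 𝕜) • u ≠ 0 := smul_ne_zero hcne hu
  have hT : ‖φ.smulRight ((c : 𝕜) • u)‖ = 1 := by
    rw [ContinuousLinearMap.norm_smulRight_apply, norm_smul, RCLike.norm_ofReal,
      abs_of_pos hcpos, hc]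
    field_simp
  have hrank : LinearMap.rank ((φ.smulRight ((c : 𝕜) • u) : X →L[𝕜] X) : X →ₗ[𝕜] X) = 1 := by
    rw [LinearMap.rank, ContinuousLinearMap.range_smulRight_apply hφ,
      Module.rank_eq_one_iff_finrank_eq_one]
    exact finrank_span_singleton hcu
  refine (rankOneIndex_le hrank hT).trans ?_
  refine Real.sSup_le ?_ (by positivity)
  rintro r ⟨x, f, hx, hf, hfx, rfl⟩
  rw [ContinuousLinearMap.smulRight_apply, map_smul, map_smul, smul_eq_mul, smul_eq_mul]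
  have h1 := h x f hx hf hfx
  have h2 : φ x * ((c : 𝕜) * f u) = (c : 𝕜) * (φ x * f u) := by ring
  rw [h2, norm_mul, RCLike.norm_ofReal, abs_of_pos hcpos, hc, div_eq_inv_mul]
  exact mul_le_mul_of_nonneg_left h1 (by positivity)

end General

/-- The candidate value: for `P > 2` and the root `y` of `(y+1)^(2-P) + (y-1)^(2-P) = 2`. -/
noncomputable def indexValue (P y : ℝ) : ℝ :=
  (P - 1) / (P * (y + 1 - (y + 1) ^ (2 - P))) *
    (((y + 1) ^ P + (y - 1) ^ P - 2) / (2 * (P - 1))) ^ (1 / P)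

lemma indexValue_eq (P y : ℝ) : indexValue P y = H47.NT.F P y := rfl

/-- Lower bound for the index in terms of norming pairs. -/
lemma le_rankOneIndex {X : Type*} [NormedAddCommGroup X] [NormedSpace ℝ X]
    (hX : ∃ x : X, x ≠ 0) {c : ℝ}
    (hc : ∀ (φ : X →L[ℝ] ℝ) (u : X) (M : ℝ), ‖φ‖ = 1 → ‖u‖ = 1 → 0 ≤ M →
      (∀ (x : X) (f : X →L[ℝ] ℝ), ‖x‖ = 1 → ‖f‖ = 1 → f x = 1 → |φ x * f u| ≤ M) → c ≤ M) :
    c ≤ rankOneIndex ℝ X := by
  unfold rankOneIndex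
  refine le_csInf ?_ ?_
  · obtain ⟨x, hx⟩ := hX
    obtain ⟨ψ, hψ, _⟩ := exists_dual_vector ℝ x (norm_ne_zero_iff.2 hx)
    have hψ0 : ψ ≠ 0 := by
      intro h; rw [h, norm_zero] at hψ; norm_num at hψ
    have hxn : 0 < ‖x‖ := norm_pos_iff.2 hx
    have hu0 : (‖x‖⁻¹ : ℝ) • x ≠ 0 := smul_ne_zero (by positivity) hx
    refine ⟨_, ψ.smulRight ((‖x‖⁻¹ : ℝ) • x), ?_, ?_, rfl⟩
    · rw [LinearMap.rank, ContinuousLinearMap.range_smulRight_apply hψ0,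
        Module.rank_eq_one_iff_finrank_eq_one]
      exact finrank_span_singleton hu0
    · rw [ContinuousLinearMap.norm_smulRight_apply, hψ, norm_smul,
        Real.norm_of_nonneg (by positivity)]
      field_simp
  · rintro t ⟨T, hrank, hT, rfl⟩
    obtain ⟨φ, u, hφ, hu, hTu⟩ := H47.NT.rank_one_decomp T hrank hT
    refine hc φ u _ hφ hu (numericalRadius_nonneg T) fun x f hx hf hfx => ?_
    have h := le_numericalRadius T hx hf hfx
    rw [hTu, map_smul, smul_eq_mul, Real.norm_eq_abs] at h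
    exact h

lemma par_of {P y : ℝ} (h1 : 2 < P) (h2 : P ≤ 21 / 10) (hy : 1 < y)
    (heq : (y + 1) ^ (2 - P) + (y - 1) ^ (2 - P) = 2) : H47.NT.Par P y := ⟨h1, h2, hy, heq⟩

/-- Lower bound. -/
lemma index_lower {Ω : Type*} [MeasurableSpace Ω] (μ : Measure Ω) (p : ℝ≥0∞) [Fact (1 ≤ p)]
    (hp1 : 1 < p) (hp : p ≠ ∞) {P y : ℝ} (hP : P = max p.toReal (p.toReal / (p.toReal - 1)))
    (h : H47.NT.Par P y) (hX : ∃ x : Lp ℝ p μ, x ≠ 0) :
    indexValue P y ≤ rankOneIndex ℝ (Lp ℝ p μ) := by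
  have hr := H47.NI.one_lt_toReal hp1 hp
  rw [indexValue_eq]
  have hp3 : p.toReal ≤ 3 := by
    have h1 : p.toReal ≤ P := by rw [hP]; exact le_max_left _ _
    linarith [h.hp']
  refine le_rankOneIndex hX fun φ u M hφ hu hM0 hM => ?_
  refine le_of_forall_pos_le_add fun η hη => ?_
  obtain ⟨f, g, hf, hg, hgf, hφg⟩ := H47.NT.approx_norming hp1 hp hp3 φ hφ hη
  have hM' : ∀ (x : Lp ℝ p μ) (f : Lp ℝ p μ →L[ℝ] ℝ), ‖x‖ = 1 → ‖f‖ = 1 → f x = 1 →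
      |g x * f u| ≤ M + η := by
    intro x f hx hf hfx
    have h1 := hM x f hx hf hfx
    have h2 : |(φ - g) x| ≤ η := by
      have := (φ - g).le_opNorm x
      rw [hx, mul_one, Real.norm_eq_abs] at this
      exact this.trans hφg
    have h3 : |f u| ≤ 1 := by
      have := f.le_opNorm u
      rwa [hf, hu, mul_one, Real.norm_eq_abs] at this
    have h4 : g x * f u = φ x * f u - (φ - g) x * f u := by
      rw [sub_apply]; ring
    rw [h4]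
    refine (abs_sub _ _).trans ?_
    rw [abs_mul ((φ - g) x)]
    have h5 : |(φ - g) x| * |f u| ≤ η * 1 := mul_le_mul h2 h3 (abs_nonneg _) hη.le
    linarith
  rcases le_total (p.toReal / (p.toReal - 1)) p.toReal with hc | hc
  · rw [max_eq_left hc] at hP
    subst hP
    exact H47.NT.low_norming hp h f u g hf hu hg hgf (by linarith) hM'
  · rw [max_eq_right hc] at hP
    subst hP
    exact H47.NT.low_norming_dual hp1 hp h f u g hf hu hg hgf (by linarith) hM'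

/-- Upper bound. -/
lemma index_upper {Ω : Type*} [MeasurableSpace Ω] (μ : Measure Ω) (p : ℝ≥0∞) [Fact (1 ≤ p)]
    (hp1 : 1 < p) (hp : p ≠ ∞) {P y : ℝ} (hP : P = max p.toReal (p.toReal / (p.toReal - 1)))
    (h : H47.NT.Par P y) (hdim : 3 ≤ Module.rank ℝ (Lp ℝ p μ)) :
    rankOneIndex ℝ (Lp ℝ p μ) ≤ indexValue P y := by
  have hr := H47.NI.one_lt_toReal hp1 hp
  rw [indexValue_eq]
  obtain ⟨A, hA, hdis, hμ0, hμ⟩ := H47.NT.exists_three (by positivity) hp hdim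
  have key : ∃ (φ : Lp ℝ p μ →L[ℝ] ℝ) (u : Lp ℝ p μ), 1 ≤ ‖φ‖ ∧ 1 ≤ ‖u‖ ∧
      ∀ (x : Lp ℝ p μ) (f : Lp ℝ p μ →L[ℝ] ℝ), ‖x‖ = 1 → ‖f‖ = 1 → f x = 1 →
        |φ x * f u| ≤ H47.NT.F P y := by
    rcases le_total (p.toReal / (p.toReal - 1)) p.toReal with hc | hc
    · rw [max_eq_left hc] at hP
      subst hP
      exact H47.NT.upp hp1 hp h hA hdis hμ0 hμ
    · rw [max_eq_right hc] at hP
      subst hP
      exact H47.NT.upp_dual hp1 hp h hA hdis hμ0 hμ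
  obtain ⟨φ, u, hφ, hu, hb⟩ := key
  have hφ0 : φ ≠ 0 := by rintro rfl; rw [norm_zero] at hφ; linarith
  have hu0 : u ≠ 0 := by rintro rfl; rw [norm_zero] at hu; linarith
  have h1 := rankOneIndex_le_of hφ0 hu0 h.F_pos.le (fun x f hx hf hfx => by
    rw [Real.norm_eq_abs]; exact hb x f hx hf hfx)
  refine h1.trans (div_le_self h.F_pos.le ?_)
  nlinarith

/-- Real scalars. Let `1 < p < ∞`, let `μ` be any measure and let `P = max(p, p/(p-1))` satisfy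
`2 < P ≤ 21/10` (that is `p ∈ [21/11, 21/10]`, `p ≠ 2`). There is a unique `y > 1` with
`(y+1)^(2-P) + (y-1)^(2-P) = 2`, and with this `y` one has `n_1(L_p(μ)) = indexValue P y` whenever
`dim L_p(μ) ≥ 3` and `n_1(L_p(μ)) ≥ indexValue P y` whenever `dim L_p(μ) > 1`. -/
theorem result {Ω : Type*} [MeasurableSpace Ω] (μ : Measure Ω) (p : ℝ≥0∞) [Fact (1 ≤ p)]
    (hp1 : 1 < p) (hp : p ≠ ∞) (P : ℝ) (hP : P = max p.toReal (p.toReal / (p.toReal - 1)))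
    (h1 : 2 < P) (h2 : P ≤ 21 / 10) :
    ∃ y : ℝ, (1 < y ∧ (y + 1) ^ (2 - P) + (y - 1) ^ (2 - P) = 2) ∧
      (∀ y' : ℝ, 1 < y' → (y' + 1) ^ (2 - P) + (y' - 1) ^ (2 - P) = 2 → y' = y) ∧
      (3 ≤ Module.rank ℝ (Lp ℝ p μ) → rankOneIndex ℝ (Lp ℝ p μ) = indexValue P y) ∧
      (1 < Module.rank ℝ (Lp ℝ p μ) → indexValue P y ≤ rankOneIndex ℝ (Lp ℝ p μ)) := by
  obtain ⟨y, hy⟩ := H47.NT.exists_root h1 h2
  have hne : ∀ c : Cardinal, 0 < c → c ≤ Module.rank ℝ (Lp ℝ p μ) → ∃ x : Lp ℝ p μ, x ≠ 0 := by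
    intro c hc0 hc
    by_contra hcon
    push Not at hcon
    have : Module.rank ℝ (Lp ℝ p μ) = 0 := by
      have : Subsingleton (Lp ℝ p μ) := ⟨fun a b => by rw [hcon a, hcon b]⟩
      exact rank_subsingleton' ℝ (Lp ℝ p μ)
    rw [this] at hc
    exact absurd (lt_of_lt_of_le hc0 hc) (lt_irrefl _)
  refine ⟨y, ⟨hy.hy, hy.heq⟩, fun y' hy1 hy2 => hy.unique hy1 hy2, fun hd => ?_, fun hd => ?_⟩
  · refine le_antisymm (index_upper μ p hp1 hp hP hy hd) ?_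
    exact index_lower μ p hp1 hp hP hy (hne 3 (by norm_num) hd)
  · exact index_lower μ p hp1 hp hP hy (hne 1 one_pos hd.le)

end Pool.Agent.Results.MP_d0ed5b_an.ExactNearTwo
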